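import Mathlib

set_option autoImplicit false

/-!
A group which is the union of an increasing sequence of proper subgroups acts on a tree without
inversions and without fixed vertices.
-/

namespace Pool.Agent.K7.H88.FA

open SimpleGraph

variable {H : Type} [Group H] (K : ℕ → Subgroup H)

/-- the vertices of the tree: the cosets of the subgroups `K n` -/
def CV : Type := Σ n : ℕ, H ⧸ K n

instance : MulAction H (CV K) where
  smul h v := ⟨v.1, h • v.2⟩
  one_smul v := by
    rcases v with ⟨n, a⟩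
    show (⟨n, (1 : H) • a⟩ : CV K) = ⟨n, a⟩
    rw [one_smul]
  mul_smul g h v := by
    rcases v with ⟨n, a⟩
    show (⟨n, (g * h) • a⟩ : CV K) = ⟨n, g • h • a⟩
    rw [mul_smul]

/-- the vertex `g K n` -/
def cv (n : ℕ) (g : H) : CV K := ⟨n, (g : H ⧸ K n)⟩

variable {K}

lemma cv_surj (v : CV K) : ∃ g : H, v = cv K v.1 g := by
  rcases v with ⟨n, a⟩
  obtain ⟨g, rfl⟩ := QuotientGroup.mk_surjective a
  exact ⟨g, rfl⟩

lemma cv_eq {n : ℕ} {g h : H} : cv K n g = cv K n h ↔ g⁻¹ * h ∈ K n := by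
  constructor
  · intro hh
    have h1 : HEq ((g : H ⧸ K n)) ((h : H ⧸ K n)) := (Sigma.mk.inj hh).2
    exact QuotientGroup.eq.1 (eq_of_heq h1)
  · intro hh
    unfold cv
    rw [QuotientGroup.eq.2 hh]

lemma smul_cv (g h : H) (n : ℕ) : g • cv K n h = cv K n (g * h) := rfl

lemma cv_fst (n : ℕ) (h : H) : (cv K n h).1 = n := rfl

variable (K)

/-- `w` is the parent of `v` -/
def Par (v w : CV K) : Prop := ∃ (n : ℕ) (g : H), v = cv K n g ∧ w = cv K (n + 1) g

/-- the tree -/
def CT : SimpleGraph (CV K) where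
  Adj v w := Par K v w ∨ Par K w v
  symm := ⟨fun v w h => h.symm⟩
  loopless := ⟨by
    rintro v (⟨n, g, h1, h2⟩ | ⟨n, g, h1, h2⟩)
    · rw [h1] at h2
      have := congrArg Sigma.fst h2
      simp [cv] at this
    · rw [h1] at h2
      have := congrArg Sigma.fst h2
      simp [cv] at this⟩

variable {K}

lemma par_adj (n : ℕ) (g : H) : (CT K).Adj (cv K n g) (cv K (n + 1) g) := Or.inl ⟨n, g, rfl, rfl⟩

lemma reach_up (g : H) (n k : ℕ) : (CT K).Reachable (cv K n g) (cv K (n + k) g) := by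
  induction k with
  | zero => exact Reachable.refl _
  | succ k ih => exact ih.trans (par_adj (n + k) g).reachable

/-- `v` is a descendant of `cv K n g` -/
def Desc (n : ℕ) (g : H) (v : CV K) : Prop := ∃ (m : ℕ) (h : H), m ≤ n ∧ v = cv K m h ∧
  g⁻¹ * h ∈ K n

lemma desc_iff (hK : Monotone K) {n m : ℕ} {g h : H} :
    Desc n g (cv K m h) ↔ m ≤ n ∧ g⁻¹ * h ∈ K n := by
  constructor
  · rintro ⟨m', h', hm, h1, h2⟩
    have hmm : m = m' := congrArg Sigma.fst h1
    subst hmm
    refine ⟨hm, ?_⟩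
    have h3 := cv_eq.1 h1
    have h4 := (K n).mul_mem h2 ((K n).inv_mem (hK hm h3))
    have h5 : g⁻¹ * h' * (h⁻¹ * h')⁻¹ = g⁻¹ * h := by group
    rwa [h5] at h4
  · rintro ⟨h1, h2⟩
    exact ⟨m, h, h1, rfl, h2⟩

theorem chain_tree (hK : Monotone K) (hU : ∀ h : H, ∃ n, h ∈ K n) : (CT K).IsTree := by
  constructor
  · -- connected
    have hpre : (CT K).Preconnected := by
      intro v w
      obtain ⟨g, hg⟩ := cv_surj v
      obtain ⟨h, hh⟩ := cv_surj w
      rw [hg, hh]
      obtain ⟨N, hN⟩ := hU (g⁻¹ * h)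
      let M := max N (max v.1 w.1)
      have h1 : cv K M g = cv K M h := cv_eq.2 (hK (le_max_left _ _) hN)
      obtain ⟨a, ha⟩ := Nat.exists_eq_add_of_le ((le_max_left v.1 w.1).trans (le_max_right N _))
      obtain ⟨b, hb⟩ := Nat.exists_eq_add_of_le ((le_max_right v.1 w.1).trans (le_max_right N _))
      have h2 := reach_up (K := K) g v.1 a
      have h3 := reach_up (K := K) h w.1 b
      rw [← ha] at h2
      rw [← hb] at h3
      refine h2.trans ?_
      show (CT K).Reachable (cv K M g) _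
      rw [h1]
      exact h3.symm
    haveI : Nonempty (CV K) := ⟨cv K 0 1⟩
    exact ⟨hpre⟩
  · rw [isAcyclic_iff_forall_adj_isBridge]
    have key : ∀ (n : ℕ) (g : H), (CT K).IsBridge s(cv K n g, cv K (n + 1) g) := by
      intro n g
      rw [isBridge_iff]
      intro hr
      -- the descendants of `cv K n g` are closed under adjacency
      have hcl : ∀ v w : CV K, ((CT K) \ fromEdgeSet {s(cv K n g, cv K (n + 1) g)}).Adj v w →
          Desc n g v → Desc n g w := by
        intro v w hvw hv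
        rw [SimpleGraph.sdiff_adj] at hvw
        obtain ⟨hvw, hne⟩ := hvw
        rcases hvw with ⟨m, h, rfl, rfl⟩ | ⟨m, h, rfl, rfl⟩
        · rw [desc_iff hK] at hv ⊢
          obtain ⟨hm, hmem⟩ := hv
          refine ⟨?_, hmem⟩
          rcases Nat.lt_or_ge m n with h1 | h1
          · omega
          · exfalso
            have hmn : m = n := le_antisymm hm h1
            subst hmn
            apply hne
            rw [fromEdgeSet_adj]
            refine ⟨?_, (par_adj m h).ne⟩
            rw [Set.mem_singleton_iff]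
            have e1 : cv K m h = cv K m g := (cv_eq.2 hmem).symm
            have e2 : cv K (m + 1) h = cv K (m + 1) g :=
              (cv_eq.2 (hK (Nat.le_succ m) hmem)).symm
            rw [e1, e2]
        · rw [desc_iff hK] at hv ⊢
          obtain ⟨hm, hmem⟩ := hv
          exact ⟨by omega, hmem⟩
      have hw : ∀ v w : CV K, ((CT K) \ fromEdgeSet {s(cv K n g, cv K (n + 1) g)}).Walk v w →
          Desc n g v → Desc n g w := by
        intro v w p
        induction p with
        | nil => exact id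
        | cons h p ih => exact fun hv => ih (hcl _ _ h hv)
      obtain ⟨p⟩ := hr
      have h1 := hw _ _ p (by rw [desc_iff hK]; exact ⟨le_rfl, by simp⟩)
      rw [desc_iff hK] at h1
      omega
    intro v w hvw
    rcases hvw with ⟨m, h, rfl, rfl⟩ | ⟨m, h, rfl, rfl⟩
    · exact key m h
    · rw [Sym2.eq_swap]
      exact key m h

theorem not_fa_of_chain (hK : Monotone K) (hU : ∀ h : H, ∃ n, h ∈ K n) (hne : ∀ n, K n ≠ ⊤) :
    ¬ (∀ (V : Type) [MulAction H V] (T : SimpleGraph V), T.IsTree →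
        (∀ h : H, ∀ x y : V, T.Adj x y → T.Adj (h • x) (h • y)) →
        (∀ h : H, ∀ x y : V, T.Adj x y → ¬ (h • x = y ∧ h • y = x)) →
        ∃ v : V, ∀ h : H, h • v = v) := by
  intro hall
  have hadj : ∀ h : H, ∀ x y : CV K, (CT K).Adj x y → (CT K).Adj (h • x) (h • y) := by
    rintro h x y (⟨n, g, rfl, rfl⟩ | ⟨n, g, rfl, rfl⟩)
    · exact par_adj n (h * g)
    · exact (par_adj n (h * g)).symm
  have hinv : ∀ h : H, ∀ x y : CV K, (CT K).Adj x y → ¬ (h • x = y ∧ h • y = x) := by
    rintro h x y (⟨n, g, rfl, rfl⟩ | ⟨n, g, rfl, rfl⟩) ⟨h1, -⟩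
    · have h2 : n = n + 1 := congrArg Sigma.fst h1
      omega
    · have h2 : n + 1 = n := congrArg Sigma.fst h1
      omega
  obtain ⟨v, hv⟩ := hall (CV K) (CT K) (chain_tree hK hU) hadj hinv
  obtain ⟨g, hg⟩ := cv_surj v
  apply hne v.1
  rw [Subgroup.eq_top_iff']
  intro x
  have h1 := hv (g * x⁻¹ * g⁻¹)
  rw [hg, smul_cv, cv_eq] at h1
  have h2 : (g * x⁻¹ * g⁻¹ * g)⁻¹ * g = x := by group
  rwa [h2] at h1

end Pool.Agent.K7.H88.FA
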