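import Mathlib

set_option autoImplicit false

/-!
Elementary `3 × 3` matrices over a noncommutative ring.
-/

namespace Pool.Agent.K7.H88.FA

open Matrix

variable {A : Type} [Ring A]

/-- the elementary matrix -/
def E {k l : Fin 3} (h : k ≠ l) (a : A) : (Matrix (Fin 3) (Fin 3) A)ˣ where
  val := 1 + single k l a
  inv := 1 - single k l a
  val_inv := by
    rw [add_mul, mul_sub, mul_sub, mul_one, one_mul, mul_one, single_mul_single_of_ne _ _ _ _ h.symm]
    abel
  inv_val := by
    rw [sub_mul, mul_add, mul_add, mul_one, one_mul, mul_one, single_mul_single_of_ne _ _ _ _ h.symm]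
    abel

lemma E_val {k l : Fin 3} (h : k ≠ l) (a : A) :
    (E h a).val = 1 + single k l a := rfl

lemma E_zero {k l : Fin 3} (h : k ≠ l) : E h (0 : A) = 1 := by
  apply Units.ext
  rw [E_val, single_zero, add_zero, Units.val_one]

lemma E_add {k l : Fin 3} (h : k ≠ l) (a b : A) : E h (a + b) = E h a * E h b := by
  apply Units.ext
  rw [Units.val_mul, E_val, E_val, E_val, mul_add, add_mul, add_mul, mul_one, mul_one, one_mul,
    single_mul_single_of_ne _ _ _ _ h.symm, single_add]
  abel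

lemma E_neg {k l : Fin 3} (h : k ≠ l) (a : A) : E h (-a) = (E h a)⁻¹ := by
  rw [eq_inv_iff_mul_eq_one, ← E_add, neg_add_cancel, E_zero]

lemma E_sub {k l : Fin 3} (h : k ≠ l) (a b : A) : E h (a - b) = E h a * (E h b)⁻¹ := by
  rw [sub_eq_add_neg, E_add, E_neg]

lemma E_steinberg {k l m : Fin 3} (h1 : k ≠ l) (h2 : l ≠ m) (h3 : k ≠ m) (a b : A) :
    E h1 a * E h2 b = E h3 (a * b) * (E h2 b * E h1 a) := by
  apply Units.ext
  simp only [Units.val_mul, E_val, mul_add, add_mul, mul_one, one_mul]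
  rw [single_mul_single_same, single_mul_single_of_ne _ _ _ _ h3.symm,
    single_mul_single_of_ne _ _ _ _ h2.symm, single_mul_single_of_ne _ _ _ _ h3.symm]
  simp only [mul_zero, add_zero]
  abel

lemma E_comm {k l m n : Fin 3} (h1 : k ≠ l) (h2 : m ≠ n) (hlm : l ≠ m) (hnk : n ≠ k) (a b : A) :
    E h1 a * E h2 b = E h2 b * E h1 a := by
  apply Units.ext
  simp only [Units.val_mul, E_val, mul_add, add_mul, mul_one, one_mul]
  rw [single_mul_single_of_ne _ _ _ _ hlm, single_mul_single_of_ne _ _ _ _ hnk]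
  abel

lemma E_injective {k l : Fin 3} (h : k ≠ l) {a b : A} (hab : E h a = E h b) : a = b := by
  have h1 := congrArg (fun x : (Matrix (Fin 3) (Fin 3) A)ˣ => x.val k l) hab
  simpa [E_val, Matrix.single_apply_same] using h1

lemma E_sq (h2 : ∀ a : A, a + a = 0) {k l : Fin 3} (h : k ≠ l) (a : A) : E h a * E h a = 1 := by
  rw [← E_add, h2, E_zero]

lemma E_pow4 (h2 : ∀ a : A, a + a = 0) {k l m : Fin 3} (h1 : k ≠ l) (h2' : l ≠ m) (h3 : k ≠ m)
    (a b : A) : (E h1 a * E h2' b) ^ 4 = 1 := by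
  have e1 := E_steinberg h1 h2' h3 a b
  have e2 := E_comm h1 h3 h1.symm h3.symm a (a * b)
  have e3 := E_comm h2' h3 h3.symm h2'.symm b (a * b)
  have e4 : (E h1 a * E h2' b) * (E h1 a * E h2' b) = E h3 (a * b) := by
    calc (E h1 a * E h2' b) * (E h1 a * E h2' b)
        = (E h3 (a * b) * (E h2' b * E h1 a)) * (E h1 a * E h2' b) := by rw [← e1]
      _ = E h3 (a * b) * (E h2' b * (E h1 a * E h1 a) * E h2' b) := by simp only [mul_assoc]
      _ = E h3 (a * b) := by rw [E_sq h2, mul_one, E_sq h2, mul_one]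
  calc (E h1 a * E h2' b) ^ 4
      = ((E h1 a * E h2' b) * (E h1 a * E h2' b)) * ((E h1 a * E h2' b) * (E h1 a * E h2' b)) := by
        rw [pow_succ, pow_succ, pow_succ, pow_one]
        simp only [mul_assoc]
    _ = 1 := by rw [e4, E_sq h2]

end Pool.Agent.K7.H88.FA
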