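import Pool.Agent.K7.H88.FA.Grp

set_option autoImplicit false

/-!
The two groups.
-/

namespace Pool.Agent.K7.H88.FA

open Matrix

lemma ne_succ (k : Fin 3) : k ≠ k + 1 := by
  revert k
  decide

/-- the generators of `EE R` -/
def gens : Set Γ := {x | ∃ (k : Fin 3), ∃ v ∈ V0, x = e (ne_succ k) v}

lemma V0_finite : V0.Finite := by
  unfold V0
  exact Set.toFinite _

lemma gens_finite : gens.Finite := by
  have h1 := V0_finite
  have h2 : gens = ⋃ k : Fin 3, (fun v => e (ne_succ k) v) '' V0 := by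
    ext x
    simp only [gens, Set.mem_ofPred_eq, Set.mem_iUnion, Set.mem_image]
    constructor
    · rintro ⟨k, v, hv, rfl⟩
      exact ⟨k, v, hv, rfl⟩
    · rintro ⟨k, v, hv, rfl⟩
      exact ⟨k, v, hv, rfl⟩
  rw [h2]
  exact Set.finite_iUnion fun k => h1.image _

lemma gens_le : gens ⊆ EE R := by
  rintro x ⟨k, v, hv, rfl⟩
  exact e_mem _ (Subring.subset_closure hv)

theorem closure_gens : Subgroup.closure gens = EE R := by
  apply le_antisymm
  · rw [Subgroup.closure_le]
    exact gens_le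
  · -- the set of `r` with all elementary matrices in the closure
    have hV : ∀ (k l : Fin 3) (h : k ≠ l), ∀ v ∈ V0, e h v ∈ Subgroup.closure gens := by
      have h1 : ∀ (k l : Fin 3) (h : k ≠ l) (hl : l = k + 1), ∀ v ∈ V0,
          e h v ∈ Subgroup.closure gens := by
        rintro k l h rfl v hv
        exact Subgroup.subset_closure ⟨k, v, hv, rfl⟩
      have h2 : ∀ k l : Fin 3, k ≠ l → l = k + 1 ∨ ∃ m, m = k + 1 ∧ l = m + 1 := by decide
      intro k l h v hv
      rcases h2 k l h with h3 | ⟨m, h3, h4⟩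
      · exact h1 k l h h3 v hv
      · have hkm : k ≠ m := by rw [h3]; exact ne_succ k
        have hml : m ≠ l := by rw [h4]; exact ne_succ m
        have h5 := e_steinberg' hkm hml h v 1
        rw [mul_one] at h5
        rw [h5]
        have h6 := h1 k m hkm h3 v hv
        have h7 := h1 m l hml h4 1 (by simp [V0])
        exact Subgroup.mul_mem _ (Subgroup.mul_mem _ (Subgroup.mul_mem _ h6 h7)
          (Subgroup.inv_mem _ h6)) (Subgroup.inv_mem _ h7)
    let A : Subring W :=
      { carrier := {r | ∀ (k l : Fin 3) (h : k ≠ l), e h r ∈ Subgroup.closure gens}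
        mul_mem' := by
          intro a b ha hb k l h
          obtain ⟨m, h1, h2⟩ : ∃ m, k ≠ m ∧ m ≠ l := by
            revert k l
            decide
          rw [e_steinberg' h1 h2 h]
          exact Subgroup.mul_mem _ (Subgroup.mul_mem _ (Subgroup.mul_mem _ (ha _ _ _) (hb _ _ _))
            (Subgroup.inv_mem _ (ha _ _ _))) (Subgroup.inv_mem _ (hb _ _ _))
        one_mem' := fun k l h => hV k l h 1 (by simp [V0])
        add_mem' := by
          intro a b ha hb k l h
          rw [e_add]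
          exact Subgroup.mul_mem _ (ha _ _ _) (hb _ _ _)
        zero_mem' := by
          intro k l h
          rw [e_zero]
          exact Subgroup.one_mem _
        neg_mem' := by
          intro a ha k l h
          rw [e_neg]
          exact Subgroup.inv_mem _ (ha _ _ _) }
    have hR : R ≤ A := by
      unfold R
      rw [Subring.closure_le]
      intro v hv k l h
      exact hV k l h v hv
    unfold EE
    rw [Subgroup.closure_le]
    rintro x ⟨k, l, h, r, hr, rfl⟩
    exact hR hr k l h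

lemma W_two (a : W) : a + a = 0 := funext fun i => B_two i (a i)

lemma gens_sq {x : Γ} (hx : x ∈ gens) : x * x = 1 := by
  obtain ⟨k, v, -, rfl⟩ := hx
  funext i
  exact E_sq (B_two i) _ _

lemma gens_pow4 {x y : Γ} (hx : x ∈ gens) (hy : y ∈ gens) : (x * y) ^ 4 = 1 := by
  have h1 : ∀ k l : Fin 3, k = l ∨ l = k + 1 ∨ k = l + 1 := by decide
  have hsymm : ∀ a b : Γ, (a * b) ^ 4 = 1 → (b * a) ^ 4 = 1 := by
    intro a b hab
    have h2 : (b * a) ^ 4 = b * (a * b) ^ 4 * b⁻¹ := by
      simp only [pow_succ, pow_zero, one_mul, mul_assoc, mul_inv_cancel, mul_one]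
    rw [h2, hab, mul_one, mul_inv_cancel]
  have hstep : ∀ (k l : Fin 3) (v w : W), l = k + 1 →
      (e (ne_succ k) v * e (ne_succ l) w) ^ 4 = 1 := by
    rintro k l v w rfl
    funext i
    have hk : k ≠ k + 1 + 1 := by
      revert k
      decide
    exact E_pow4 (B_two i) (ne_succ k) (ne_succ (k + 1)) hk (v i) (w i)
  obtain ⟨k, v, hv, rfl⟩ := hx
  obtain ⟨l, w, hw, rfl⟩ := hy
  rcases h1 k l with h | h | h
  · subst h
    have h2 : e (ne_succ k) v * e (ne_succ k) w = e (ne_succ k) (v + w) := (e_add _ _ _).symm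
    have h3 : e (ne_succ k) (v + w) * e (ne_succ k) (v + w) = 1 := by
      rw [← e_add, W_two, e_zero]
    rw [h2, show (4 : ℕ) = 2 * 2 from rfl, pow_mul, pow_two (e (ne_succ k) (v + w)), h3, one_pow]
  · exact hstep k l v w h
  · exact hsymm _ _ (hstep l k w v h)

/-- the small group has property (FA) -/
theorem fa_G (V : Type) [MulAction (EE R) V] (T : SimpleGraph V) (hT : T.IsTree)
    (hadj : ∀ (g : EE R) (x y : V), T.Adj x y → T.Adj (g • x) (g • y))
    (hinv : ∀ (g : EE R) (x y : V), T.Adj x y → ¬ (g • x = y ∧ g • y = x)) :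
    ∃ v : V, ∀ g : EE R, g • v = v := by
  classical
  have hf : ((↑) ⁻¹' gens : Set (EE R)).Finite := gens_finite.preimage Subtype.val_injective.injOn
  refine fa_of_gen hf.toFinset ?_ ?_ ?_ hT hadj hinv
  · rw [Set.Finite.coe_toFinset]
    rw [eq_top_iff]
    intro x _
    have h1 : x.1 ∈ Subgroup.closure gens := by
      rw [closure_gens]
      exact x.2
    have h2 : (Subgroup.closure ((↑) ⁻¹' gens : Set (EE R))).map (EE R).subtype =
        Subgroup.closure gens := by
      rw [MonoidHom.map_closure]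
      congr 1
      exact Subtype.image_preimage_coe _ _ |>.trans (Set.inter_eq_right.2 gens_le)
    rw [← h2] at h1
    obtain ⟨y, hy, hyx⟩ := h1
    have : y = x := Subtype.ext hyx
    rwa [← this]
  · intro s hs
    rw [Set.Finite.mem_toFinset] at hs
    exact Subtype.ext (gens_sq hs)
  · intro s hs t ht
    rw [Set.Finite.mem_toFinset] at hs ht
    exact Subtype.ext (gens_pow4 hs ht)

/-- a strictly increasing sequence of subrings between `R` and `W'` -/
theorem exists_rings : ∃ T : ℕ → Subring W, StrictMono T ∧ R ≤ T 0 ∧ ∀ n, T n ≤ W' := by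
  obtain ⟨T, hT, h0⟩ := exists_chain (A := W') ((↑) ⁻¹' V0)
    (V0_finite.preimage Subtype.val_injective.injOn).countable
  refine ⟨fun n => (T n).map W'.subtype, ?_, ?_, ?_⟩
  · intro m n hmn
    obtain ⟨h1, h2⟩ := SetLike.lt_iff_le_and_exists.1 (hT hmn)
    obtain ⟨x, hx1, hx2⟩ := h2
    have h3 : x.1 ∈ (T n).map W'.subtype := ⟨x, hx1, rfl⟩
    refine SetLike.lt_iff_le_and_exists.2 ⟨?_, x.1, h3, ?_⟩
    · rintro _ ⟨y, hy, rfl⟩
      exact ⟨y, h1 hy, rfl⟩
    rintro ⟨y, hy, hyx⟩
    have : y = x := Subtype.ext hyx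
    rw [this] at hy
    exact hx2 hy
  · unfold R
    rw [Subring.closure_le]
    intro v hv
    have hv' : v ∈ W' := R_le_W' (Subring.subset_closure hv)
    exact ⟨⟨v, hv'⟩, h0 hv, rfl⟩
  · rintro n _ ⟨x, -, rfl⟩
    exact x.2

/-- **the counterexample** -/
theorem counterexample :
    ∃ (G H : Type) (_ : Group G) (_ : Group H) (u : G →* H),
      (∀ g : G, g ≠ 1 → ∃ N : Subgroup G, N.Normal ∧ N.index ≠ 0 ∧ g ∉ N) ∧
      (∀ h : H, h ≠ 1 → ∃ M : Subgroup H, M.Normal ∧ M.index ≠ 0 ∧ h ∉ M) ∧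
      Function.Injective u ∧
      (∀ N : Subgroup G, N.Normal → N.index ≠ 0 →
        ∃ M : Subgroup H, M.Normal ∧ M.index ≠ 0 ∧ M.comap u ≤ N) ∧
      (∀ M : Subgroup H, M.Normal → M.index ≠ 0 →
        ∀ h : H, ∃ g : G, ∃ m ∈ M, h = u g * m) ∧
      (∀ (V : Type) [MulAction G V] (T : SimpleGraph V), T.IsTree →
        (∀ g : G, ∀ x y : V, T.Adj x y → T.Adj (g • x) (g • y)) →
        (∀ g : G, ∀ x y : V, T.Adj x y → ¬ (g • x = y ∧ g • y = x)) →
        ∃ v : V, ∀ g : G, g • v = v) ∧
      ¬ (∀ (V : Type) [MulAction H V] (T : SimpleGraph V), T.IsTree →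
        (∀ h : H, ∀ x y : V, T.Adj x y → T.Adj (h • x) (h • y)) →
        (∀ h : H, ∀ x y : V, T.Adj x y → ¬ (h • x = y ∧ h • y = x)) →
        ∃ v : V, ∀ h : H, h • v = v) := by
  obtain ⟨T, hT, hT0, hTW⟩ := exists_rings
  let TT : Subring W := ⨆ n, T n
  have hdir : Directed (· ≤ ·) T := hT.monotone.directed_le
  have hmem : ∀ r : W, r ∈ TT ↔ ∃ n, r ∈ T n := fun r => Subring.mem_iSup_of_directed hdir
  have hRT : R ≤ TT := hT0.trans (le_iSup T 0)
  have hTTW : TT ≤ W' := iSup_le hTW
  have hle : EE R ≤ EE TT := EE_mono hRT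
  refine ⟨EE R, EE TT, inferInstance, inferInstance, Subgroup.inclusion hle, rf _, rf _,
    Subgroup.inclusion_injective hle, ?_, ?_, fun V _ T h1 h2 h3 => fa_G V T h1 h2 h3, ?_⟩
  · intro N hN hi
    obtain ⟨n, hn⟩ := key le_rfl N hN hi
    refine ⟨cong (EE TT) n, inferInstance, cong_index _ _, ?_⟩
    intro x hx
    rw [Subgroup.mem_comap, mem_cong] at hx
    exact hn x hx
  · intro M hM hi h
    obtain ⟨n, hn⟩ := key hRT M hM hi
    have h1 : prL n h.1 ∈ EE R := prL_mem hTTW n h.2
    refine ⟨⟨prL n h.1, h1⟩, (Subgroup.inclusion hle ⟨prL n h.1, h1⟩)⁻¹ * h, hn _ ?_, ?_⟩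
    · intro i hi
      show (prL n h.1 i)⁻¹ * h.1 i = 1
      have h2 : prL n h.1 i = h.1 i := by
        show (if i < n then h.1 i else 1) = h.1 i
        rw [if_pos hi]
      rw [h2, inv_mul_cancel]
    · rw [mul_inv_cancel_left]
  · let K : ℕ → Subgroup (EE TT) := fun n => (EE (T n)).subgroupOf (EE TT)
    refine not_fa_of_chain (K := K) ?_ ?_ ?_
    · intro m n hmn
      exact Subgroup.comap_mono (EE_mono (hT.monotone hmn))
    · intro h
      -- the union of the `EE (T n)`
      have hd2 : Directed (· ≤ ·) fun n => EE (T n) :=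
        (show Monotone fun n => EE (T n) from fun m n hmn => EE_mono (hT.monotone hmn)).directed_le
      have h1 : EE TT ≤ ⨆ n, EE (T n) := by
        conv_lhs => unfold EE
        rw [Subgroup.closure_le]
        rintro x ⟨k, l, hkl, r, hr, rfl⟩
        obtain ⟨n, hn⟩ := (hmem r).1 hr
        exact (le_iSup (fun n => EE (T n)) n) (e_mem hkl hn)
      obtain ⟨n, hn⟩ := (Subgroup.mem_iSup_of_directed hd2).1 (h1 h.2)
      exact ⟨n, hn⟩
    · intro n htop
      obtain ⟨-, x, hx1, hx2⟩ := SetLike.lt_iff_le_and_exists.1 (hT (Nat.lt_succ_self n))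
      have h01 : (0 : Fin 3) ≠ 1 := by decide
      have h1 : e h01 x ∈ EE TT := e_mem h01 ((hmem x).2 ⟨_, hx1⟩)
      have h2 : (⟨e h01 x, h1⟩ : EE TT) ∈ K n := by
        rw [htop]
        exact Subgroup.mem_top _
      exact hx2 ((e_mem_iff h01).1 h2)

end Pool.Agent.K7.H88.FA
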