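import Mathlib

set_option autoImplicit false

/-!
The rings of operators on functions on `(ZMod 2) ^ (i + 1)`.
-/

namespace Pool.Agent.K7.H88.FA

/-- the index set -/
abbrev X (i : ℕ) : Type := ZMod (i + 1) → ZMod 2

/-- the ring of additive operators -/
abbrev B (i : ℕ) : Type := AddMonoid.End (X i → ZMod 2)

/-- the product ring -/
abbrev W : Type := ∀ i, B i

instance finite_B (i : ℕ) : Finite (B i) :=
  DFunLike.finite (F := (X i → ZMod 2) →+ (X i → ZMod 2))

lemma B_two (i : ℕ) (a : B i) : a + a = 0 := by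
  ext f x
  show a f x + a f x = 0
  exact CharTwo.add_self_eq_zero _

/-- multiplication with the coordinate `j` -/
def Pop (i : ℕ) (j : ZMod (i + 1)) : B i where
  toFun f x := x j * f x
  map_zero' := by
    ext x
    simp
  map_add' f g := by
    ext x
    simp [mul_add]

/-- translation in the coordinate `j` -/
def Top (i : ℕ) (j : ZMod (i + 1)) : B i where
  toFun f x := f (x + Pi.single j 1)
  map_zero' := rfl
  map_add' _ _ := rfl

/-- rotation -/
def Sop (i : ℕ) : B i where
  toFun f x := f (fun l => x (l + 1))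
  map_zero' := rfl
  map_add' _ _ := rfl

/-- inverse rotation -/
def Sop' (i : ℕ) : B i where
  toFun f x := f (fun l => x (l - 1))
  map_zero' := rfl
  map_add' _ _ := rfl

/-- the elements of the product ring -/
def P (j : ℕ) : W := fun i => Pop i (j : ZMod (i + 1))
def Tr (j : ℕ) : W := fun i => Top i (j : ZMod (i + 1))
def S : W := fun i => Sop i
def S' : W := fun i => Sop' i

/-- the central idempotents -/
def c (j k : ℕ) : W := fun i => if (j : ZMod (i + 1)) = (k : ZMod (i + 1)) then 1 else 0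

lemma S_mul_S' : S * S' = 1 := by
  funext i
  ext f x
  show f (fun l => (fun l => x (l + 1)) (l - 1)) = f x
  congr 1
  funext l
  show x (l - 1 + 1) = x l
  rw [sub_add_cancel]

lemma S_mul_P (j : ℕ) : S * P j = P (j + 1) * S := by
  funext i
  ext f x
  show x ((j : ZMod (i + 1)) + 1) * f (fun l => x (l + 1)) =
    x ((j + 1 : ℕ) : ZMod (i + 1)) * f (fun l => x (l + 1))
  rw [Nat.cast_succ]

lemma S_mul_Tr (j : ℕ) : S * Tr j = Tr (j + 1) * S := by
  funext i
  ext f x
  show f ((fun l => x (l + 1)) + Pi.single (j : ZMod (i + 1)) 1) =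
    f (fun l => ((x : X i) + (Pi.single (((j + 1 : ℕ) : ZMod (i + 1))) 1 : X i) : X i) (l + 1))
  congr 1
  funext l
  show x (l + 1) + _ = x (l + 1) + _
  congr 1
  rw [Nat.cast_succ, Pi.single_apply, Pi.single_apply]
  simp only [add_left_inj]

lemma P_succ (j : ℕ) : P (j + 1) = S * P j * S' := by
  rw [S_mul_P, mul_assoc, S_mul_S', mul_one]

lemma Tr_succ (j : ℕ) : Tr (j + 1) = S * Tr j * S' := by
  rw [S_mul_Tr, mul_assoc, S_mul_S', mul_one]

lemma Tr_sq (j : ℕ) : Tr j * Tr j = 1 := by
  funext i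
  ext f x
  show f (x + Pi.single (j : ZMod (i + 1)) 1 + Pi.single (j : ZMod (i + 1)) 1) = f x
  congr 1
  rw [add_assoc, ← Pi.single_add]
  have : (1 : ZMod 2) + 1 = 0 := by decide
  rw [this, Pi.single_zero, add_zero]

lemma Tr_P (j k : ℕ) : Tr k * P j - P j * Tr k = c j k * Tr k := by
  funext i
  ext f x
  show ((x : X i) + (Pi.single (k : ZMod (i + 1)) 1 : X i) : X i) (j : ZMod (i + 1)) *
      f (x + Pi.single (k : ZMod (i + 1)) 1) - x (j : ZMod (i + 1)) *
      f (x + Pi.single (k : ZMod (i + 1)) 1) = ((c j k i) * Top i (k : ZMod (i + 1))) f x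
  rw [Pi.add_apply, add_mul, add_sub_cancel_left, Pi.single_apply]
  unfold c
  split_ifs
  · rw [one_mul, one_mul]
    rfl
  · rw [zero_mul, zero_mul]
    rfl

lemma c_eq (j k : ℕ) : c j k = (Tr k * P j - P j * Tr k) * Tr k := by
  rw [Tr_P, mul_assoc, Tr_sq, mul_one]

lemma c_self (j : ℕ) : c j j = 1 := by
  funext i
  simp [c]

/-- the coordinate idempotents -/
def δ (i : ℕ) : W := Pi.single i 1

lemma c_zero (i : ℕ) : c 0 (i + 1) = ∑ l ∈ (Finset.range (i + 1)).filter (fun l => l + 1 ∣ i + 1),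
    δ l := by
  funext m
  rw [Finset.sum_apply]
  unfold c δ
  have h1 : (((0 : ℕ) : ZMod (m + 1)) = ((i + 1 : ℕ) : ZMod (m + 1))) ↔ m + 1 ∣ i + 1 := by
    rw [eq_comm, Nat.cast_zero, ZMod.natCast_eq_zero_iff]
  by_cases hm : m + 1 ∣ i + 1
  · rw [if_pos (h1.2 hm), Finset.sum_eq_single m]
    · rw [Pi.single_eq_same]
    · intro b _ hb
      rw [Pi.single_eq_of_ne hb.symm]
    · intro hmem
      exfalso
      apply hmem
      rw [Finset.mem_filter, Finset.mem_range]
      exact ⟨by have := Nat.le_of_dvd (Nat.succ_pos i) hm; omega, hm⟩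
  · rw [if_neg (fun h => hm (h1.1 h))]
    symm
    apply Finset.sum_eq_zero
    intro b hb
    rw [Finset.mem_filter] at hb
    rw [Pi.single_eq_of_ne]
    rintro rfl
    exact hm hb.2

/-- the generators -/
def V0 : Set W := {1, S, S', P 0, Tr 0}

/-- the finitely generated ring -/
def R : Subring W := Subring.closure V0

lemma S_mem : S ∈ R := Subring.subset_closure (by simp [V0])
lemma S'_mem : S' ∈ R := Subring.subset_closure (by simp [V0])

lemma P_mem (j : ℕ) : P j ∈ R := by
  induction j with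
  | zero => exact Subring.subset_closure (by simp [V0])
  | succ j ih => rw [P_succ]; exact R.mul_mem (R.mul_mem S_mem ih) S'_mem

lemma Tr_mem (j : ℕ) : Tr j ∈ R := by
  induction j with
  | zero => exact Subring.subset_closure (by simp [V0])
  | succ j ih => rw [Tr_succ]; exact R.mul_mem (R.mul_mem S_mem ih) S'_mem

lemma c_mem (j k : ℕ) : c j k ∈ R := by
  rw [c_eq]
  exact R.mul_mem (R.sub_mem (R.mul_mem (Tr_mem k) (P_mem j)) (R.mul_mem (P_mem j) (Tr_mem k)))
    (Tr_mem k)

lemma δ_mem (i : ℕ) : δ i ∈ R := by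
  induction i using Nat.strong_induction_on with
  | _ i ih =>
    have h1 := c_zero i
    have h2 : i ∈ (Finset.range (i + 1)).filter (fun l => l + 1 ∣ i + 1) := by
      rw [Finset.mem_filter, Finset.mem_range]
      exact ⟨by omega, dvd_rfl⟩
    rw [← Finset.add_sum_erase _ _ h2] at h1
    have h3 : δ i = c 0 (i + 1) -
        ∑ l ∈ ((Finset.range (i + 1)).filter (fun l => l + 1 ∣ i + 1)).erase i, δ l := by
      rw [h1]
      abel
    rw [h3]
    refine R.sub_mem (c_mem _ _) (R.sum_mem fun l hl => ih l ?_)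
    rw [Finset.mem_erase, Finset.mem_filter, Finset.mem_range] at hl
    omega

/-- the idempotent of the coordinates `< k` -/
def lo (k : ℕ) : W := fun i => if i < k then 1 else 0

/-- the idempotent of the coordinates `≥ k` -/
def hi (k : ℕ) : W := fun i => if i < k then 0 else 1

lemma lo_eq (k : ℕ) : lo k = ∑ i ∈ Finset.range k, δ i := by
  funext m
  rw [Finset.sum_apply]
  unfold lo δ
  by_cases hm : m < k
  · rw [if_pos hm, Finset.sum_eq_single m]
    · rw [Pi.single_eq_same]
    · intro b _ hb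
      rw [Pi.single_eq_of_ne hb.symm]
    · intro hmem
      exact absurd (Finset.mem_range.2 hm) hmem
  · rw [if_neg hm]
    symm
    apply Finset.sum_eq_zero
    intro b hb
    rw [Finset.mem_range] at hb
    rw [Pi.single_eq_of_ne]
    omega

lemma lo_mem (k : ℕ) : lo k ∈ R := by
  rw [lo_eq]
  exact R.sum_mem fun i _ => δ_mem i

lemma hi_eq (k : ℕ) : hi k = 1 - lo k := by
  funext i
  show hi k i = 1 - lo k i
  unfold hi lo
  split_ifs <;> simp

lemma hi_mem (k : ℕ) : hi k ∈ R := by
  rw [hi_eq]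
  exact R.sub_mem R.one_mem (lo_mem k)

lemma hi_mul_c {j k : ℕ} (hjk : j < k) : hi k * (1 - c k j) = hi k := by
  funext i
  show hi k i * (1 - c k j i) = hi k i
  unfold hi
  split_ifs with h
  · rw [zero_mul]
  · rw [one_mul]
    unfold c
    rw [if_neg, sub_zero]
    intro h1
    rw [ZMod.natCast_eq_natCast_iff] at h1
    have h2 : j % (i + 1) = j := Nat.mod_eq_of_lt (by omega)
    have h3 : k % (i + 1) = j := by
      have h4 : k % (i + 1) = j % (i + 1) := h1
      rw [h4, h2]
    rcases Nat.lt_or_ge k (i + 1) with h5 | h5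
    · rw [Nat.mod_eq_of_lt h5] at h3
      omega
    · omega

/-- coordinatewise in `R` -/
def W' : Subring W where
  carrier := {r | ∀ i, ∃ s ∈ R, s i = r i}
  mul_mem' := by
    intro a b ha hb i
    obtain ⟨s, hs, h1⟩ := ha i
    obtain ⟨t, ht, h2⟩ := hb i
    exact ⟨s * t, R.mul_mem hs ht, by rw [Pi.mul_apply, Pi.mul_apply, h1, h2]⟩
  one_mem' := fun i => ⟨1, R.one_mem, rfl⟩
  add_mem' := by
    intro a b ha hb i
    obtain ⟨s, hs, h1⟩ := ha i
    obtain ⟨t, ht, h2⟩ := hb i
    exact ⟨s + t, R.add_mem hs ht, by rw [Pi.add_apply, Pi.add_apply, h1, h2]⟩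
  zero_mem' := fun i => ⟨0, R.zero_mem, rfl⟩
  neg_mem' := by
    intro a ha i
    obtain ⟨s, hs, h1⟩ := ha i
    exact ⟨-s, R.neg_mem hs, by rw [Pi.neg_apply, Pi.neg_apply, h1]⟩

lemma R_le_W' : R ≤ W' := fun r hr _ => ⟨r, hr, rfl⟩

lemma δ_mul_mem {r : W} (hr : r ∈ W') (i : ℕ) : δ i * r ∈ R := by
  obtain ⟨s, hs, h1⟩ := hr i
  have : δ i * r = δ i * s := by
    funext m
    show δ i m * r m = δ i m * s m
    unfold δ
    by_cases hm : m = i
    · subst hm
      rw [h1]
    · rw [Pi.single_eq_of_ne hm, zero_mul, zero_mul]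
  rw [this]
  exact R.mul_mem (δ_mem i) hs

lemma lo_mul_mem {r : W} (hr : r ∈ W') (k : ℕ) : lo k * r ∈ R := by
  rw [lo_eq, Finset.sum_mul]
  exact R.sum_mem fun i _ => δ_mul_mem hr i

lemma nontriv (i : ℕ) : (1 : B i) ≠ 0 := by
  intro h
  have h1 := congrArg (fun a : B i => a (fun _ => 1) 0) h
  have h2 : (1 : ZMod 2) = 0 := h1
  exact absurd h2 (by decide)

lemma unc_set : Uncountable (Set ℕ) := by
  rw [uncountable_iff_forall_not_surjective]
  intro f hf
  exact Function.cantor_surjective f hf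

instance : Uncountable W' := by
  classical
  have := unc_set
  let F : Set ℕ → W' := fun A => ⟨fun i => if i ∈ A then 1 else 0, fun i => by
    by_cases h : i ∈ A
    · exact ⟨1, R.one_mem, by simp [h]⟩
    · exact ⟨0, R.zero_mem, by simp [h]⟩⟩
  have hF : Function.Injective F := by
    intro A A' h
    ext i
    have h1 : (if i ∈ A then (1 : B i) else 0) = if i ∈ A' then 1 else 0 :=
      congrFun (congrArg Subtype.val h) i
    by_cases h2 : i ∈ A <;> by_cases h3 : i ∈ A'
    · exact ⟨fun _ => h3, fun _ => h2⟩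
    · rw [if_pos h2, if_neg h3] at h1
      exact absurd h1 (nontriv i)
    · rw [if_neg h2, if_pos h3] at h1
      exact absurd h1.symm (nontriv i)
    · exact ⟨fun h => absurd h h2, fun h => absurd h h3⟩
  exact hF.uncountable

end Pool.Agent.K7.H88.FA
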