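import Mathlib

set_option autoImplicit false

/-!
An uncountable ring contains strictly increasing sequences of subrings containing a given
countable set.
-/

namespace Pool.Agent.K7.H88.FA

variable {A : Type} [Ring A]

lemma countable_freeRing : Countable (FreeRing ℕ) := by
  have h1 : Countable (FreeMonoid ℕ) := inferInstanceAs (Countable (List ℕ))
  have h2 : Countable (FreeMonoid ℕ →₀ ℤ) := inferInstance
  exact (FreeAbelianGroup.equivFinsupp (FreeMonoid ℕ)).toEquiv.countable_iff.2 h2

lemma exists_countable_subring (s : Set A) (hs : s.Countable) :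
    ∃ T : Subring A, Countable T ∧ s ⊆ T := by
  have hs' : (insert 0 s).Countable := hs.insert 0
  obtain ⟨f, hf⟩ := hs'.exists_eq_range (Set.insert_nonempty _ _)
  have := countable_freeRing
  refine ⟨(FreeRing.lift f).range, ?_, ?_⟩
  · exact (FreeRing.lift f).rangeRestrict_surjective.countable
  · intro x hx
    have : x ∈ insert 0 s := Set.mem_insert_of_mem _ hx
    rw [hf] at this
    obtain ⟨n, rfl⟩ := this
    exact ⟨FreeRing.of n, FreeRing.lift_of f n⟩

lemma exists_step [Uncountable A] (T : Subring A) (hT : Countable T) :
    ∃ T' : Subring A, Countable T' ∧ T < T' := by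
  have h1 : (T : Set A) ≠ Set.univ := by
    intro h
    have h2 : (Set.univ : Set A).Countable := by
      rw [← h]
      exact Set.countable_coe_iff.1 hT
    exact Set.not_countable_univ h2
  obtain ⟨x, hx⟩ := (Set.ne_univ_iff_exists_notMem _).1 h1
  obtain ⟨T', h2, h3⟩ := exists_countable_subring (insert x (T : Set A))
    ((Set.countable_coe_iff.1 hT).insert x)
  refine ⟨T', h2, lt_of_le_of_ne (fun y hy => h3 (Set.mem_insert_of_mem _ hy)) ?_⟩
  rintro rfl
  exact hx (h3 (Set.mem_insert _ _))

theorem exists_chain [Uncountable A] (s : Set A) (hs : s.Countable) :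
    ∃ T : ℕ → Subring A, StrictMono T ∧ s ⊆ T 0 := by
  classical
  obtain ⟨T0, h0, hs0⟩ := exists_countable_subring s hs
  choose! step h1 h2 using fun (T : Subring A) (hT : Countable T) => exists_step T hT
  let F : ℕ → Subring A := fun n => Nat.rec T0 (fun _ T => step T) n
  have hF : ∀ n, Countable ↥(F n) := by
    intro n
    induction n with
    | zero => exact h0
    | succ n ih => exact h1 _ ih
  exact ⟨F, strictMono_nat_of_lt_succ fun n => h2 _ (hF n), hs0⟩

end Pool.Agent.K7.H88.FA
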