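import Pool.Agent.K7.H88.FA.Tree
import Pool.Agent.K7.H88.FA.Chain
import Pool.Agent.K7.H88.FA.RingChain
import Pool.Agent.K7.H88.FA.Elem
import Pool.Agent.K7.H88.FA.Ops

set_option autoImplicit false

/-!
The elementary groups.
-/

namespace Pool.Agent.K7.H88.FA

open Matrix

/-- the matrix groups of the coordinates -/
abbrev U (i : ℕ) : Type := (Matrix (Fin 3) (Fin 3) (B i))ˣ

/-- their product -/
abbrev Γ : Type := ∀ i, U i

instance finite_U (i : ℕ) : Finite (U i) := by
  have : Finite (Matrix (Fin 3) (Fin 3) (B i)) := inferInstanceAs (Finite (Fin 3 → Fin 3 → B i))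
  infer_instance

/-- the elementary matrices of the product -/
def e {k l : Fin 3} (h : k ≠ l) (r : W) : Γ := fun i => E h (r i)

lemma e_zero {k l : Fin 3} (h : k ≠ l) : e h 0 = 1 := funext fun _ => E_zero h

lemma e_add {k l : Fin 3} (h : k ≠ l) (a b : W) : e h (a + b) = e h a * e h b :=
  funext fun _ => E_add h _ _

lemma e_neg {k l : Fin 3} (h : k ≠ l) (a : W) : e h (-a) = (e h a)⁻¹ :=
  funext fun _ => E_neg h _

lemma e_sub {k l : Fin 3} (h : k ≠ l) (a b : W) : e h (a - b) = e h a * (e h b)⁻¹ :=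
  funext fun _ => E_sub h _ _

lemma e_steinberg {k l m : Fin 3} (h1 : k ≠ l) (h2 : l ≠ m) (h3 : k ≠ m) (a b : W) :
    e h1 a * e h2 b = e h3 (a * b) * (e h2 b * e h1 a) :=
  funext fun _ => E_steinberg h1 h2 h3 _ _

lemma e_steinberg' {k l m : Fin 3} (h1 : k ≠ l) (h2 : l ≠ m) (h3 : k ≠ m) (a b : W) :
    e h3 (a * b) = e h1 a * e h2 b * (e h1 a)⁻¹ * (e h2 b)⁻¹ := by
  rw [e_steinberg h1 h2 h3]
  group

/-- the elementary group of a subring -/
def EE (T : Subring W) : Subgroup Γ :=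
  Subgroup.closure {x | ∃ (k l : Fin 3) (h : k ≠ l), ∃ r ∈ T, x = e h r}

lemma e_mem {T : Subring W} {k l : Fin 3} (h : k ≠ l) {r : W} (hr : r ∈ T) : e h r ∈ EE T :=
  Subgroup.subset_closure ⟨k, l, h, r, hr, rfl⟩

lemma EE_mono {T T' : Subring W} (h : T ≤ T') : EE T ≤ EE T' := by
  apply Subgroup.closure_mono
  rintro x ⟨k, l, hkl, r, hr, rfl⟩
  exact ⟨k, l, hkl, r, h hr, rfl⟩

lemma entries {T : Subring W} {x : Γ} (hx : x ∈ EE T) :
    ∀ k l, (fun i => (x i).val k l) ∈ T := by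
  unfold EE at hx
  rw [← Subgroup.mem_toSubmonoid, Subgroup.closure_toSubmonoid] at hx
  refine Submonoid.closure_induction (motive := fun x _ => ∀ k l, (fun i => (x i).val k l) ∈ T)
    ?_ ?_ ?_ hx
  · have key : ∀ (a b : Fin 3) (h : a ≠ b) (r : W), r ∈ T →
        ∀ k l, (fun i => (e h r i).val k l) ∈ T := by
      intro a b h r hr k l
      have h1 : (fun i => (e h r i).val k l) = (if k = l then 1 else 0) +
          (if a = k ∧ b = l then r else 0) := by
        funext i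
        show (1 + single a b (r i) : Matrix (Fin 3) (Fin 3) (B i)) k l = _
        rw [Matrix.add_apply, Matrix.one_apply, Matrix.single_apply, Pi.add_apply]
        congr 1
        · split_ifs <;> rfl
        · split_ifs <;> rfl
      rw [h1]
      refine T.add_mem ?_ ?_
      · split_ifs
        · exact T.one_mem
        · exact T.zero_mem
      · split_ifs
        · exact hr
        · exact T.zero_mem
    rintro x (⟨a, b, h, r, hr, rfl⟩ | hx)
    · exact key a b h r hr
    · rw [Set.mem_inv] at hx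
      obtain ⟨a, b, h, r, hr, hx⟩ := hx
      have h1 : x = e h (-r) := by rw [e_neg, ← hx, inv_inv]
      rw [h1]
      exact key a b h (-r) (T.neg_mem hr)
  · intro k l
    have h1 : (fun i => ((1 : Γ) i).val k l) = (if k = l then 1 else 0 : W) := by
      funext i
      show (1 : Matrix (Fin 3) (Fin 3) (B i)) k l = _
      rw [Matrix.one_apply]
      split_ifs <;> rfl
    rw [h1]
    split_ifs
    · exact T.one_mem
    · exact T.zero_mem
  · intro x y _ _ hx hy k l
    have h1 : (fun i => ((x * y) i).val k l) =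
        ∑ m, (fun i => (x i).val k m : W) * (fun i => (y i).val m l : W) := by
      funext i
      rw [Finset.sum_apply]
      show ((x i).val * (y i).val) k l = _
      rw [Matrix.mul_apply]
      rfl
    rw [h1]
    exact T.sum_mem fun m _ => T.mul_mem (hx k m) (hy m l)

lemma e_mem_iff {T : Subring W} {k l : Fin 3} (h : k ≠ l) {r : W} : e h r ∈ EE T ↔ r ∈ T := by
  refine ⟨fun hr => ?_, e_mem h⟩
  have h1 := entries hr k l
  have h2 : (fun i => (e h r i).val k l) = r := by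
    funext i
    show (1 + single k l (r i) : Matrix (Fin 3) (Fin 3) (B i)) k l = _
    rw [Matrix.add_apply, Matrix.one_apply_ne h, zero_add, Matrix.single_apply_same]
  rwa [h2] at h1

/-- the coordinates `≥ k` -/
def prH (k : ℕ) : Γ →* Γ where
  toFun x i := if i < k then 1 else x i
  map_one' := by
    funext i
    simp
  map_mul' x y := by
    funext i
    show (if i < k then 1 else x i * y i) = (if i < k then 1 else x i) * (if i < k then 1 else y i)
    split_ifs <;> simp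

/-- the coordinates `< k` -/
def prL (k : ℕ) : Γ →* Γ where
  toFun x i := if i < k then x i else 1
  map_one' := by
    funext i
    simp
  map_mul' x y := by
    funext i
    show (if i < k then x i * y i else 1) = (if i < k then x i else 1) * (if i < k then y i else 1)
    split_ifs <;> simp

lemma prH_e (n : ℕ) {k l : Fin 3} (h : k ≠ l) (r : W) : prH n (e h r) = e h (hi n * r) := by
  funext i
  show (if i < n then 1 else E h (r i)) = E h (hi n i * r i)
  unfold hi
  split_ifs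
  · rw [zero_mul, E_zero]
  · rw [one_mul]

lemma prL_e (n : ℕ) {k l : Fin 3} (h : k ≠ l) (r : W) : prL n (e h r) = e h (lo n * r) := by
  funext i
  show (if i < n then E h (r i) else 1) = E h (lo n i * r i)
  unfold lo
  split_ifs
  · rw [one_mul]
  · rw [zero_mul, E_zero]

lemma prL_mem {T : Subring W} (hT : T ≤ W') (n : ℕ) {x : Γ} (hx : x ∈ EE T) : prL n x ∈ EE R := by
  have h1 : EE T ≤ (EE R).comap (prL n) := by
    unfold EE
    rw [Subgroup.closure_le]
    rintro x ⟨k, l, h, r, hr, rfl⟩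
    show prL n (e h r) ∈ EE R
    rw [prL_e]
    exact e_mem h (lo_mul_mem (hT hr) n)
  exact h1 hx

/-- **Finite quotients of elementary groups.** -/
theorem key {T : Subring W} (hT : R ≤ T) (N : Subgroup (EE T)) (hN : N.Normal) (hi' : N.index ≠ 0) :
    ∃ n : ℕ, ∀ x : EE T, (∀ i < n, (x : Γ) i = 1) → x ∈ N := by
  classical
  -- `e h r` as an element of the group
  let ε : ∀ {k l : Fin 3} (_ : k ≠ l) (r : T), EE T := fun h r => ⟨e h r.1, e_mem h r.2⟩
  -- the ideal
  let I : Set T := {r | ∀ (k l : Fin 3) (h : k ≠ l), ε h r ∈ N}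
  have third : ∀ k l : Fin 3, ∃ m, k ≠ m ∧ m ≠ l := by decide
  have I_sub : ∀ a ∈ I, ∀ b ∈ I, a - b ∈ I := by
    intro a ha b hb k l h
    have h1 : ε h (a - b) = ε h a * (ε h b)⁻¹ := Subtype.ext (e_sub h a.1 b.1)
    rw [h1]
    exact N.mul_mem (ha k l h) (N.inv_mem (hb k l h))
  have I_left : ∀ a : T, ∀ b ∈ I, a * b ∈ I := by
    intro a b hb k l h
    obtain ⟨m, h1, h2⟩ := third k l
    have h3 : ε h (a * b) = ε h1 a * ε h2 b * (ε h1 a)⁻¹ * (ε h2 b)⁻¹ :=
      Subtype.ext (e_steinberg' h1 h2 h a.1 b.1)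
    rw [h3]
    exact N.mul_mem (hN.conj_mem _ (hb m l h2) _) (N.inv_mem (hb m l h2))
  have I_right : ∀ a ∈ I, ∀ b : T, a * b ∈ I := by
    intro a ha b k l h
    obtain ⟨m, h1, h2⟩ := third k l
    have h3 : ε h (a * b) = ε h1 a * (ε h2 b * (ε h1 a)⁻¹ * (ε h2 b)⁻¹) := by
      refine Subtype.ext ((e_steinberg' h1 h2 h a.1 b.1).trans ?_)
      show _ = e h1 a.1 * (e h2 b.1 * (e h1 a.1)⁻¹ * (e h2 b.1)⁻¹)
      simp only [mul_assoc]
    rw [h3]
    exact N.mul_mem (ha k m h1) (hN.conj_mem _ (N.inv_mem (ha k m h1)) _)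
  -- pigeonhole
  have hfin : Finite (EE T ⧸ N) := Nat.finite_of_card_ne_zero hi'
  let PT : ℕ → T := fun j => ⟨P j, hT (P_mem j)⟩
  let TT : ℕ → T := fun j => ⟨Tr j, hT (Tr_mem j)⟩
  let f : ℕ → (∀ p : {p : Fin 3 × Fin 3 // p.1 ≠ p.2}, EE T ⧸ N) :=
    fun j p => (ε p.2 (PT j) : EE T ⧸ N)
  obtain ⟨j, k, hjk, hf⟩ : ∃ j k : ℕ, j < k ∧ f j = f k := by
    obtain ⟨j, k, hne, hf⟩ := Finite.exists_ne_map_eq_of_infinite f
    rcases Nat.lt_or_gt_of_ne hne with h | h
    · exact ⟨j, k, h, hf⟩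
    · exact ⟨k, j, h, hf.symm⟩
  have hI0 : PT j - PT k ∈ I := by
    intro a b h
    have h1 : (ε h (PT k) : EE T ⧸ N) = ε h (PT j) := (congrFun hf ⟨(a, b), h⟩).symm
    rw [QuotientGroup.eq] at h1
    have h2 : ε h (PT j - PT k) = ε h (PT k) * ((ε h (PT k))⁻¹ * ε h (PT j)) * (ε h (PT k))⁻¹ := by
      refine Subtype.ext ((e_sub h (PT j).1 (PT k).1).trans ?_)
      show _ = e h (PT k).1 * ((e h (PT k).1)⁻¹ * e h (PT j).1) * (e h (PT k).1)⁻¹
      group
    rw [h2]
    exact hN.conj_mem _ h1 _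
  have hI1 : (⟨1 - c k j, hT (R.sub_mem R.one_mem (c_mem _ _))⟩ : T) ∈ I := by
    have h1 := I_right _ (I_sub _ (I_left (TT j) _ hI0) _ (I_right _ hI0 (TT j))) (TT j)
    have h2 : (TT j * (PT j - PT k) - (PT j - PT k) * TT j) * TT j =
        ⟨1 - c k j, hT (R.sub_mem R.one_mem (c_mem _ _))⟩ := by
      apply Subtype.ext
      show (Tr j * (P j - P k) - (P j - P k) * Tr j) * Tr j = 1 - c k j
      have h3 : (1 : W) = (Tr j * P j - P j * Tr j) * Tr j := by rw [← c_eq, c_self]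
      rw [c_eq k j]
      conv_rhs => rw [h3]
      simp only [mul_sub, sub_mul]
      abel
    rwa [h2] at h1
  have hI2 : ∀ r : T, (⟨hi k * r.1, T.mul_mem (hT (hi_mem k)) r.2⟩ : T) ∈ I := by
    intro r
    have h1 := I_right _ (I_left ⟨hi k, hT (hi_mem k)⟩ _ hI1) r
    have h2 : (⟨hi k, hT (hi_mem k)⟩ : T) * ⟨1 - c k j, hT (R.sub_mem R.one_mem (c_mem _ _))⟩ * r =
        ⟨hi k * r.1, T.mul_mem (hT (hi_mem k)) r.2⟩ := by
      apply Subtype.ext
      show hi k * (1 - c k j) * r.1 = hi k * r.1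
      rw [hi_mul_c hjk]
    rwa [h2] at h1
  -- conclusion
  refine ⟨k, fun x hx => ?_⟩
  have h1 : EE T ≤ (N.map (EE T).subtype).comap (prH k) := by
    conv_lhs => unfold EE
    rw [Subgroup.closure_le]
    rintro y ⟨a, b, h, r, hr, rfl⟩
    show prH k (e h r) ∈ N.map (EE T).subtype
    rw [prH_e]
    exact ⟨_, hI2 ⟨r, hr⟩ a b h, rfl⟩
  have h2 : prH k x.1 ∈ N.map (EE T).subtype := h1 x.2
  have h3 : prH k x.1 = x.1 := by
    funext i
    show (if i < k then 1 else x.1 i) = x.1 i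
    split_ifs with h
    · exact (hx i h).symm
    · rfl
  rw [h3] at h2
  obtain ⟨y, hy, hyx⟩ := h2
  have : y = x := Subtype.ext hyx
  rwa [← this]

/-- the congruence subgroups -/
def cong (Λ : Subgroup Γ) (n : ℕ) : Subgroup Λ :=
  ((MonoidHom.pi fun i : Fin n => (Pi.evalMonoidHom U i.1)).comp Λ.subtype).ker

lemma mem_cong {Λ : Subgroup Γ} {n : ℕ} {x : Λ} : x ∈ cong Λ n ↔ ∀ i < n, (x : Γ) i = 1 := by
  unfold cong
  rw [MonoidHom.mem_ker]
  constructor
  · intro h i hi
    exact congrFun h ⟨i, hi⟩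
  · intro h
    funext i
    exact h i.1 i.2

instance cong_normal (Λ : Subgroup Γ) (n : ℕ) : (cong Λ n).Normal := by
  unfold cong
  infer_instance

lemma cong_index (Λ : Subgroup Γ) (n : ℕ) : (cong Λ n).index ≠ 0 := by
  unfold cong
  rw [Subgroup.index_ker]
  exact Nat.card_pos.ne'

lemma rf (Λ : Subgroup Γ) : ∀ g : Λ, g ≠ 1 → ∃ N : Subgroup Λ, N.Normal ∧ N.index ≠ 0 ∧ g ∉ N := by
  intro g hg
  have h1 : ∃ i, (g : Γ) i ≠ 1 := by
    by_contra hcon
    push Not at hcon
    exact hg (Subtype.ext (funext hcon))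
  obtain ⟨i, hi⟩ := h1
  refine ⟨cong Λ (i + 1), inferInstance, cong_index _ _, fun h => hi ?_⟩
  exact mem_cong.1 h i (Nat.lt_succ_self i)

end Pool.Agent.K7.H88.FA
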