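import Mathlib

set_option autoImplicit false

/-!
Groups generated by finitely many involutions with `(s t) ^ 4 = 1` fix a vertex of every tree
on which they act without inversions.
-/

namespace Pool.Agent.K7.H88.FA

open SimpleGraph

variable {V : Type} {T : SimpleGraph V}

lemma exists_between (hT : T.IsTree) (x y : V) (i j : ℕ) (h : i + j = T.dist x y) :
    ∃ m, T.dist x m = i ∧ T.dist m y = j := by
  obtain ⟨p, hp⟩ := hT.connected.exists_walk_length_eq_dist x y
  refine ⟨p.getVert i, ?_⟩
  have h1 : T.dist x (p.getVert i) ≤ i := by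
    have h1 := SimpleGraph.dist_le (p.take i)
    rw [Walk.take_length] at h1
    exact h1.trans (min_le_left _ _)
  have h2 : T.dist (p.getVert i) y ≤ j := by
    have h1 := SimpleGraph.dist_le (p.drop i)
    rw [Walk.drop_length] at h1
    omega
  have h3 := hT.connected.dist_triangle (u := x) (v := p.getVert i) (w := y)
  omega

lemma unique_between (hT : T.IsTree) {x y a b : V} (h1 : T.dist x a = T.dist x b)
    (h2 : T.dist x a + T.dist a y = T.dist x y) (h3 : T.dist x b + T.dist b y = T.dist x y) :
    a = b := by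
  obtain ⟨p, hp⟩ := hT.connected.exists_walk_length_eq_dist x a
  obtain ⟨q, hq⟩ := hT.connected.exists_walk_length_eq_dist a y
  obtain ⟨p', hp'⟩ := hT.connected.exists_walk_length_eq_dist x b
  obtain ⟨q', hq'⟩ := hT.connected.exists_walk_length_eq_dist b y
  have e1 : (p.append q).length = T.dist x y := by rw [Walk.length_append]; omega
  have e2 : (p'.append q').length = T.dist x y := by rw [Walk.length_append]; omega
  have e3 : (p.append q).IsPath := Walk.isPath_of_length_eq_dist _ e1
  have e4 : (p'.append q').IsPath := Walk.isPath_of_length_eq_dist _ e2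
  have e5 : p.append q = p'.append q' := by
    haveI := hT.isAcyclic.subsingleton_path x y
    have := Subsingleton.elim (⟨_, e3⟩ : T.Path x y) ⟨_, e4⟩
    exact congrArg Subtype.val this
  have e6 : (p.append q).getVert p.length = a := by
    rw [Walk.getVert_append]
    simp
  have e7 : (p'.append q').getVert p'.length = b := by
    rw [Walk.getVert_append]
    simp
  have e8 : p.length = p'.length := by omega
  rw [← e6, ← e7, e5, e8]

lemma adj_dist (hT : T.IsTree) {a b : V} (h : T.Adj a b) (c : V) :
    T.dist a c = T.dist b c + 1 ∨ T.dist b c = T.dist a c + 1 := by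
  have := hT.dist_eq_dist_add_one_of_adj c h
  rw [T.dist_comm (u := c) (v := a), T.dist_comm (u := c) (v := b)] at this
  exact this

/-- the turning lemma -/
lemma turn (hT : T.IsTree) {x x' y : V} (hx : T.Adj x x') (h1 : T.dist x y = T.dist x' y + 1) :
    ∀ (n : ℕ) (z : V), T.dist x z = n → T.dist x' z = T.dist x z + 1 →
      T.dist y z = T.dist y x + T.dist x z := by
  intro n
  induction n using Nat.strong_induction_on with
  | _ n ih =>
    intro z hn hz
    rcases Nat.eq_zero_or_pos n with h0 | hpos
    · subst h0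
      have : x = z := (hT.connected.dist_eq_zero_iff).1 hn
      subst this
      simp
    · obtain ⟨z', hz1, hz2⟩ := exists_between hT x z (n - 1) 1 (by omega)
      have hadj : T.Adj z' z := SimpleGraph.dist_eq_one_iff_adj.1 hz2
      have ht1 := hT.connected.dist_triangle (u := x') (v := x) (w := z')
      have hx1 : T.dist x' x = 1 := SimpleGraph.dist_eq_one_iff_adj.2 hx.symm
      have ht2 := hT.connected.dist_triangle (u := x') (v := z') (w := z)
      have hz3 : T.dist x' z' = T.dist x z' + 1 := by omega
      have h2 := ih (n - 1) (by omega) z' hz1 hz3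
      rcases adj_dist hT hadj y with h3 | h3
      · -- `z` closer to `y` than `z'`
        exfalso
        rcases Nat.lt_or_ge 1 n with hn1 | hn1
        · obtain ⟨z'', hw1, hw2⟩ := exists_between hT x z' (n - 2) 1 (by omega)
          have hadj' : T.Adj z'' z' := SimpleGraph.dist_eq_one_iff_adj.1 hw2
          have ht3 := hT.connected.dist_triangle (u := x') (v := x) (w := z'')
          have ht4 := hT.connected.dist_triangle (u := x') (v := z'') (w := z')
          have h4 := ih (n - 2) (by omega) z'' hw1 (by omega)
          have hcy1 : T.dist z' y = T.dist y z' := T.dist_comm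
          have hcy2 : T.dist z y = T.dist y z := T.dist_comm
          have hcy3 : T.dist z'' y = T.dist y z'' := T.dist_comm
          have hcy4 : T.dist z' z'' = T.dist z'' z' := T.dist_comm
          have h5 : z = z'' := unique_between hT (x := z') (y := y) (by omega) (by omega) (by omega)
          subst h5
          omega
        · have hxz' : x = z' := (hT.connected.dist_eq_zero_iff).1 (by omega)
          subst hxz'
          have hxx : T.dist x x' = T.dist x' x := T.dist_comm
          have h5 : z = x' := unique_between hT (x := x) (y := y) (by omega) (by omega) (by omega)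
          subst h5
          rw [T.dist_self] at hz
          omega
      · have hcy1 : T.dist z' y = T.dist y z' := T.dist_comm
        have hcy2 : T.dist z y = T.dist y z := T.dist_comm
        omega

section action

variable {G : Type} [Group G] [MulAction G V]

lemma walk_map (hadj : ∀ (g : G) (x y : V), T.Adj x y → T.Adj (g • x) (g • y)) (g : G) {x y : V}
    (p : T.Walk x y) : ∃ q : T.Walk (g • x) (g • y), q.length = p.length := by
  induction p with
  | nil => exact ⟨Walk.nil, rfl⟩
  | cons h p ih =>
    obtain ⟨q, hq⟩ := ih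
    exact ⟨Walk.cons (hadj g _ _ h) q, by simp [hq]⟩

lemma dist_smul_le (hT : T.IsTree)
    (hadj : ∀ (g : G) (x y : V), T.Adj x y → T.Adj (g • x) (g • y)) (g : G) (x y : V) :
    T.dist (g • x) (g • y) ≤ T.dist x y := by
  obtain ⟨p, hp⟩ := hT.connected.exists_walk_length_eq_dist x y
  obtain ⟨q, hq⟩ := walk_map hadj g p
  rw [← hp, ← hq]
  exact SimpleGraph.dist_le q

lemma dist_smul (hT : T.IsTree)
    (hadj : ∀ (g : G) (x y : V), T.Adj x y → T.Adj (g • x) (g • y)) (g : G) (x y : V) :
    T.dist (g • x) (g • y) = T.dist x y := by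
  apply le_antisymm (dist_smul_le hT hadj g x y)
  have := dist_smul_le hT hadj g⁻¹ (g • x) (g • y)
  simpa using this

/-- the fixed point set is convex -/
lemma fix_between (hT : T.IsTree)
    (hadj : ∀ (g : G) (x y : V), T.Adj x y → T.Adj (g • x) (g • y)) {g : G} {x y m : V}
    (hx : g • x = x) (hy : g • y = y) (hm : T.dist x m + T.dist m y = T.dist x y) :
    g • m = m := by
  have h1 := dist_smul hT hadj g x m
  have h2 := dist_smul hT hadj g m y
  rw [hx] at h1
  rw [hy] at h2
  exact unique_between hT (x := x) (y := y) h1 (by omega) hm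

/-- an involution without inversions fixes the middle of `[v, s v]` -/
lemma exists_mid (hT : T.IsTree)
    (hadj : ∀ (g : G) (x y : V), T.Adj x y → T.Adj (g • x) (g • y))
    (hinv : ∀ (g : G) (x y : V), T.Adj x y → ¬ (g • x = y ∧ g • y = x)) {s : G} {v : V}
    (hs : s • s • v = v) : ∃ m, s • m = m ∧ T.dist v m + T.dist m (s • v) = T.dist v (s • v) := by
  obtain ⟨k, hk | hk⟩ := Nat.even_or_odd' (T.dist v (s • v))
  · obtain ⟨m, h1, h2⟩ := exists_between hT v (s • v) k k (by omega)
    refine ⟨m, ?_, by omega⟩
    have h3 := dist_smul hT hadj s v m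
    have h4 := dist_smul hT hadj s m (s • v)
    rw [hs] at h4
    have hc1 : T.dist (s • m) v = T.dist v (s • m) := T.dist_comm
    have hc2 : T.dist (s • v) (s • m) = T.dist (s • m) (s • v) := T.dist_comm
    exact unique_between hT (x := v) (y := s • v) (by omega) (by omega) (by omega)
  · exfalso
    obtain ⟨m, h1, h2⟩ := exists_between hT v (s • v) k (k + 1) (by omega)
    obtain ⟨m', h3, h4⟩ := exists_between hT m (s • v) 1 k (by omega)
    have hadj' : T.Adj m m' := SimpleGraph.dist_eq_one_iff_adj.1 h3
    have ht := hT.connected.dist_triangle (u := v) (v := m) (w := m')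
    have ht2 := hT.connected.dist_triangle (u := v) (v := m') (w := s • v)
    have a1 := dist_smul hT hadj s v m
    have a2 := dist_smul hT hadj s m (s • v)
    have a3 := dist_smul hT hadj s v m'
    have a4 := dist_smul hT hadj s m' (s • v)
    rw [hs] at a2 a4
    have hc1 : T.dist (s • m) v = T.dist v (s • m) := T.dist_comm
    have hc2 : T.dist (s • v) (s • m) = T.dist (s • m) (s • v) := T.dist_comm
    have hc3 : T.dist (s • m') v = T.dist v (s • m') := T.dist_comm
    have hc4 : T.dist (s • v) (s • m') = T.dist (s • m') (s • v) := T.dist_comm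
    refine hinv s m m' hadj' ⟨?_, ?_⟩
    · exact unique_between hT (x := v) (y := s • v) (by omega) (by omega) (by omega)
    · exact unique_between hT (x := v) (y := s • v) (by omega) (by omega) (by omega)

/-- the step from `g`-conjugation to a common fixed vertex -/
lemma exists_common_step (hT : T.IsTree)
    (hadj : ∀ (g : G) (x y : V), T.Adj x y → T.Adj (g • x) (g • y))
    (hinv : ∀ (g : G) (x y : V), T.Adj x y → ¬ (g • x = y ∧ g • y = x)) {s t : G} {v : V}
    (ht : t * t = 1) (hs : s • v = v) (hst : (t * s * t) • v = v) :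
    ∃ m : V, s • m = m ∧ t • m = m := by
  have htt : t • t • v = v := by rw [← mul_smul, ht, one_smul]
  obtain ⟨m, hm1, hm2⟩ := exists_mid hT hadj hinv htt
  refine ⟨m, ?_, hm1⟩
  refine fix_between hT hadj hs ?_ hm2
  have h1 : s * t = t * (t * s * t) := by
    rw [← mul_assoc, ← mul_assoc, ht, one_mul]
  rw [← mul_smul, h1, mul_smul, hst]

lemma exists_fix (hT : T.IsTree)
    (hadj : ∀ (g : G) (x y : V), T.Adj x y → T.Adj (g • x) (g • y))
    (hinv : ∀ (g : G) (x y : V), T.Adj x y → ¬ (g • x = y ∧ g • y = x)) {s : G}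
    (hs : s * s = 1) : ∃ v : V, s • v = v := by
  obtain ⟨v⟩ := hT.connected.nonempty
  have htt : s • s • v = v := by rw [← mul_smul, hs, one_smul]
  obtain ⟨m, hm1, -⟩ := exists_mid hT hadj hinv htt
  exact ⟨m, hm1⟩

lemma exists_common (hT : T.IsTree)
    (hadj : ∀ (g : G) (x y : V), T.Adj x y → T.Adj (g • x) (g • y))
    (hinv : ∀ (g : G) (x y : V), T.Adj x y → ¬ (g • x = y ∧ g • y = x)) {s t : G}
    (hs : s * s = 1) (ht : t * t = 1) (hst : (s * t) ^ 4 = 1) :
    ∃ v : V, s • v = v ∧ t • v = v := by
  -- `s` and `r = t s t` commute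
  set r := t * s * t with hr
  have hrr : r * r = 1 := by
    calc t * s * t * (t * s * t) = t * s * (t * t) * s * t := by group
      _ = t * (s * s) * t := by rw [ht]; group
      _ = 1 := by rw [hs, mul_one, ht]
  have hcomm : r * s * r = s := by
    have h1 : (s * t) ^ 4 = s * r * s * r := by
      rw [hr, pow_succ, pow_succ, pow_succ, pow_one]
      simp only [mul_assoc]
    rw [hst] at h1
    have h2 : s * (s * r * s * r) = (s * s) * (r * s * r) := by simp only [mul_assoc]
    rw [← h1, hs, one_mul, mul_one] at h2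
    exact h2.symm
  obtain ⟨v, hv⟩ := exists_fix hT hadj hinv (T := T) hs
  obtain ⟨w, hw1, hw2⟩ := exists_common_step hT hadj hinv (s := s) (t := r) (v := v) hrr hv
    (by rw [hcomm]; exact hv)
  exact exists_common_step hT hadj hinv ht hw1 hw2

/-- the distance from `v` to the fixed point set of `s` -/
noncomputable def toFix (T : SimpleGraph V) (s : G) (v : V) : ℕ :=
  sInf {n | ∃ f, s • f = f ∧ T.dist v f = n}

lemma toFix_spec {s : G} (hs : ∃ f : V, s • f = f) (v : V) :
    ∃ f, s • f = f ∧ T.dist v f = toFix T s v := by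
  have h : {n | ∃ f, s • f = f ∧ T.dist v f = n}.Nonempty := by
    obtain ⟨f, hf⟩ := hs
    exact ⟨_, f, hf, rfl⟩
  exact Nat.sInf_mem h

lemma toFix_le {s : G} {v f : V} (hf : s • f = f) : toFix T s v ≤ T.dist v f :=
  Nat.sInf_le ⟨f, hf, rfl⟩

/-- **Helly**: finitely many elements with common fixed vertices pairwise have a common fixed
vertex -/
theorem helly (hT : T.IsTree)
    (hadj : ∀ (g : G) (x y : V), T.Adj x y → T.Adj (g • x) (g • y)) (S : Finset G)
    (hS : ∀ s ∈ S, ∀ t ∈ S, ∃ v : V, s • v = v ∧ t • v = v) : ∃ v : V, ∀ s ∈ S, s • v = v := by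
  classical
  obtain ⟨v, hv⟩ : ∃ v : V, ∀ w : V, ∑ s ∈ S, toFix T s v ≤ ∑ s ∈ S, toFix T s w := by
    have := hT.connected.nonempty
    exact ⟨Function.argmin (fun v : V => ∑ s ∈ S, toFix T s v), fun w =>
      Function.argmin_le (fun v : V => ∑ s ∈ S, toFix T s v) w⟩
  refine ⟨v, ?_⟩
  by_contra hcon
  push Not at hcon
  obtain ⟨s, hsS, hsv⟩ := hcon
  obtain ⟨f, hf, hfd⟩ := toFix_spec (T := T) (s := s) ⟨_, (hS s hsS s hsS).choose_spec.1⟩ v
  have hpos : 0 < T.dist v f := by
    rcases Nat.eq_zero_or_pos (T.dist v f) with h0 | h0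
    · exfalso
      have : v = f := (hT.connected.dist_eq_zero_iff).1 h0
      rw [this] at hsv
      exact hsv hf
    · exact h0
  obtain ⟨u, hu1, hu2⟩ := exists_between hT v f 1 (T.dist v f - 1) (by omega)
  have hvu : T.Adj v u := SimpleGraph.dist_eq_one_iff_adj.1 hu1
  -- every vertex fixed by an element not fixing `v` is on the side of `u`
  have side : ∀ t : G, t • v ≠ v → ∀ f f' : V, t • f = f → t • f' = f' →
      T.dist v f = T.dist u f + 1 → T.dist v f' = T.dist u f' + 1 := by
    intro t htv f f' htf htf' h1
    rcases adj_dist hT hvu f' with h2 | h2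
    · exact h2
    · exfalso
      have h3 := turn hT hvu h1 _ f' rfl h2
      exact htv (fix_between hT hadj htf htf' h3.symm)
  have hle : ∀ t ∈ S, toFix T t u ≤ toFix T t v := by
    intro t htS
    obtain ⟨c, hc1, hc2⟩ := hS s hsS t htS
    have h1 : T.dist v c = T.dist u c + 1 := side s hsv f c hf hc1 (by omega)
    by_cases htv : t • v = v
    · have h2 : t • u = u := by
        refine fix_between hT hadj htv hc2 ?_
        omega
      have h3 := toFix_le (T := T) (v := u) h2
      rw [T.dist_self] at h3
      omega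
    · obtain ⟨f', hf', hfd'⟩ := toFix_spec (T := T) (s := t) ⟨_, hc2⟩ v
      have h3 := side t htv c f' hc2 hf' h1
      have h4 := toFix_le (T := T) (v := u) hf'
      omega
  have hlt : toFix T s u < toFix T s v := by
    have h4 := toFix_le (T := T) (v := u) hf
    omega
  have := Finset.sum_lt_sum hle ⟨s, hsS, hlt⟩
  exact absurd (hv u) (by omega)

/-- **property (FA)** for groups generated by finitely many involutions with `(s t) ^ 4 = 1` -/
theorem fa_of_gen (S : Finset G) (hgen : Subgroup.closure (S : Set G) = ⊤)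
    (hS : ∀ s ∈ S, s * s = 1) (hS2 : ∀ s ∈ S, ∀ t ∈ S, (s * t) ^ 4 = 1) (hT : T.IsTree)
    (hadj : ∀ (g : G) (x y : V), T.Adj x y → T.Adj (g • x) (g • y))
    (hinv : ∀ (g : G) (x y : V), T.Adj x y → ¬ (g • x = y ∧ g • y = x)) :
    ∃ v : V, ∀ g : G, g • v = v := by
  obtain ⟨v, hv⟩ := helly hT hadj S (fun s hs t ht =>
    exists_common hT hadj hinv (hS s hs) (hS t ht) (hS2 s hs t ht))
  refine ⟨v, fun g => ?_⟩
  have h1 : Subgroup.closure (S : Set G) ≤ MulAction.stabilizer G v := by
    rw [Subgroup.closure_le]
    intro s hs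
    exact hv s hs
  rw [hgen] at h1
  exact h1 (Subgroup.mem_top g)

end action

end Pool.Agent.K7.H88.FA
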